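import Pool.Agent.Helper66.SC.Defs
import Pool.Agent.Helper22.SC.Conv

/-! # The truth lemma (module FB2) -/

universe u

namespace Pool.Agent.Helper91.SC

open ZFSet
open Pool.Agent.Helper66.SC Pool.Agent.Helper22.SC

variable {M A : Set ZFSet.{u}} {P G : ZFSet.{u}}

theorem gen_sub (hG : IsGeneric M P G) {p : ZFSet.{u}} (hp : p ∈ G) : p ∈ P := hG.sub hp

/-- A set in `M` which is dense below a condition of `G` meets `G`. -/
theorem dense_below (hM : IsZF M A) (hP : P ∈ M) (hG : IsGeneric M P G) {D p : ZFSet.{u}}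
    (hD : D ∈ M) (hDP : D ⊆ P) (hp : p ∈ G)
    (hd : ∀ q ∈ P, p ⊆ q → ∃ r ∈ D, q ⊆ r) : ∃ r ∈ G, r ∈ D := by
  have hpP : p ∈ P := hG.sub hp
  have hpM : p ∈ M := hM.trans _ hP _ hpP
  have hU : U (fun M A => IsZF M A) (fun _ _ (a : (ZFSet.{u} × ZFSet.{u}) × ZFSet.{u}) =>
      a.1.2 ∪ ZFSet.sep (fun r => ¬ ∃ s ∈ a.1.1, r ⊆ s ∧ a.2 ⊆ s) a.1.1) := by
    apply_rules (transparency := .reducible) (maxDepth := 400) using is_poly
  have hD' : D ∪ ZFSet.sep (fun r => ¬ ∃ s ∈ P, r ⊆ s ∧ p ⊆ s) P ∈ M :=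
    in_zfset.1 (hU.closed hM (a := ((P, D), p)) (by simp [hP, hD, hpM]))
  obtain ⟨r, hrG, hr⟩ := hG.meets _ hD' (by
    intro r hr
    rcases ZFSet.mem_union.1 hr with h | h
    · exact hDP h
    · exact (ZFSet.mem_sep.1 h).1) (by
    intro q hq
    by_cases h : ∃ s ∈ P, q ⊆ s ∧ p ⊆ s
    · obtain ⟨s, hs, h1, h2⟩ := h
      obtain ⟨r, hr, h3⟩ := hd s hs h2
      exact ⟨r, ZFSet.mem_union.2 (Or.inl hr), subset_trans h1 h3⟩
    · exact ⟨q, ZFSet.mem_union.2 (Or.inr (ZFSet.mem_sep.2 ⟨hq, h⟩)), subset_refl _⟩)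
  rcases ZFSet.mem_union.1 hr with h | h
  · exact ⟨r, hrG, h⟩
  · exfalso
    obtain ⟨s, hs, h1, h2⟩ := hG.dir r hrG p hp
    exact (ZFSet.mem_sep.1 h).2 ⟨s, hG.sub hs, h1, h2⟩

/-- The forcing relation as a uniformly definable relation. -/
theorem forces_urel (h3 : ST_FB3.{u}) {k : ℕ} (φ : Fml k) :
    URel CZ.{u} (fun N _ (a : (ZFSet.{u} × ZFSet.{u}) × (Fin k → ZFSet.{u})) =>
      Forces N a.1.1 φ a.2 a.1.2) := by
  have h := ud_iff.1 (h3 k φ)
  have h' := h.comp (f := fun _ _ (a : (ZFSet.{u} × ZFSet.{u}) × (Fin k → ZFSet.{u})) =>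
    (Fin.cons a.1.2 (Fin.cons a.1.1 a.2) : Fin (k + 2) → ZFSet.{u}))
    (U.finCons U.id.fst.snd (U.finCons U.id.fst.fst U.id.snd))
  exact h'

theorem feq_urel (h3 : ST_FB3.{u}) :
    URel CZ.{u} (fun _ _ (a : ((ZFSet.{u} × ZFSet.{u}) × ZFSet.{u}) × ZFSet.{u}) =>
      FEq a.1.1.1 a.1.1.2 a.1.2 a.2) := by
  have h := forces_urel h3 (Fml.eq (0 : Fin 2) 1)
  have h' := h.comp (f := fun _ _ (a : ((ZFSet.{u} × ZFSet.{u}) × ZFSet.{u}) × ZFSet.{u}) =>
    ((a.1.1.1, a.2), (Fin.cons a.1.1.2 (Fin.cons a.1.2 Fin.elim0) : Fin 2 → ZFSet.{u})))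
    (U.prodMk (U.prodMk U.id.fst.fst.fst U.id.snd)
      (U.finCons U.id.fst.fst.snd (U.finCons U.id.fst.snd (U.finMk (fun i => i.elim0)))))
  exact h'

theorem urel_feq (h3 : ST_FB3.{u}) {α : Type (u + 1)} [Ctx.{u} α]
    {p x y q : Set ZFSet.{u} → Set ZFSet.{u} → α → ZFSet.{u}} (hp : U CZ.{u} p)
    (hx : U CZ.{u} x) (hy : U CZ.{u} y) (hq : U CZ.{u} q) :
    URel CZ.{u} (fun N A a => FEq (p N A a) (x N A a) (y N A a) (q N A a)) :=
  (feq_urel h3).comp (((hp.prodMk hx).prodMk hy).prodMk hq)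

theorem feq_mono (h2a : ST_FB2a.{u}) {x y p q : ZFSet.{u}} (hp : p ∈ P) (hq : q ∈ P)
    (hpq : p ⊆ q) (h : FEq P x y p) : FEq P x y q :=
  (h2a ∅ P 2 (Fml.eq (0 : Fin 2) 1) ![x, y]).1 p hp q hq hpq h

/-- `r` forces `z` to be a member of `y` in a direct way. -/
def DM (P z y r : ZFSet.{u}) : Prop := ∃ w t, pair w t ∈ y ∧ t ∈ P ∧ t ⊆ r ∧ FEq P z w r

/-- The symmetric version. -/
def DM' (P w x r : ZFSet.{u}) : Prop := ∃ z s, pair z s ∈ x ∧ s ∈ P ∧ s ⊆ r ∧ FEq P z w r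

theorem dm_urel (h3 : ST_FB3.{u}) {α : Type (u + 1)} [Ctx.{u} α]
    {p x y q : Set ZFSet.{u} → Set ZFSet.{u} → α → ZFSet.{u}} (hp : U CZ.{u} p)
    (hx : U CZ.{u} x) (hy : U CZ.{u} y) (hq : U CZ.{u} q) :
    URel CZ.{u} (fun N A a => DM (p N A a) (x N A a) (y N A a) (q N A a)) := by
  have h0 : URel CZ.{u} (fun N _ (a : ((ZFSet.{u} × ZFSet.{u}) × ZFSet.{u}) × ZFSet.{u}) =>
      ∃ w ∈ N, ∃ t ∈ N, pair w t ∈ a.1.2 ∧ t ∈ a.1.1.1 ∧ t ⊆ a.2 ∧
        FEq a.1.1.1 a.1.1.2 w a.2) := by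
    refine URel.ex (R := fun N _ (a : ((ZFSet.{u} × ZFSet.{u}) × ZFSet.{u}) × ZFSet.{u}) w =>
      ∃ t ∈ N, pair w t ∈ a.1.2 ∧ t ∈ a.1.1.1 ∧ t ⊆ a.2 ∧ FEq a.1.1.1 a.1.1.2 w a.2) ?_
    refine URel.ex (R := fun N _ (a : (((ZFSet.{u} × ZFSet.{u}) × ZFSet.{u}) × ZFSet.{u}) ×
      ZFSet.{u}) t => pair a.2 t ∈ a.1.1.2 ∧ t ∈ a.1.1.1.1 ∧ t ⊆ a.1.2 ∧
        FEq a.1.1.1.1 a.1.1.1.2 a.2 a.1.2) ?_
    refine URel.and (by apply_rules (transparency := .reducible) (maxDepth := 400) using is_poly)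
      (URel.and (by apply_rules (transparency := .reducible) (maxDepth := 400) using is_poly)
      (URel.and (by apply_rules (transparency := .reducible) (maxDepth := 400) using is_poly)
      (urel_feq h3 ?_ ?_ ?_ ?_)))
    all_goals apply_rules (transparency := .reducible) (maxDepth := 400) using is_poly
  have h1 : URel CZ.{u} (fun _ _ (a : ((ZFSet.{u} × ZFSet.{u}) × ZFSet.{u}) × ZFSet.{u}) =>
      DM a.1.1.1 a.1.1.2 a.1.2 a.2) := by
    refine h0.congr (fun N A hN a ha => ?_)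
    simp only [in_prod, in_zfset] at ha
    have hZ : IsZF N A := hN
    constructor
    · rintro ⟨w, _, t, _, h⟩
      exact ⟨w, t, h⟩
    · rintro ⟨w, t, h⟩
      have := hZ.of_pair (hZ.trans _ ha.1.2 _ h.1)
      exact ⟨w, this.1, t, this.2, h⟩
  exact h1.comp (((hp.prodMk hx).prodMk hy).prodMk hq)

theorem dm'_urel (h3 : ST_FB3.{u}) {α : Type (u + 1)} [Ctx.{u} α]
    {p x y q : Set ZFSet.{u} → Set ZFSet.{u} → α → ZFSet.{u}} (hp : U CZ.{u} p)
    (hx : U CZ.{u} x) (hy : U CZ.{u} y) (hq : U CZ.{u} q) :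
    URel CZ.{u} (fun N A a => DM' (p N A a) (x N A a) (y N A a) (q N A a)) := by
  have h0 : URel CZ.{u} (fun N _ (a : ((ZFSet.{u} × ZFSet.{u}) × ZFSet.{u}) × ZFSet.{u}) =>
      ∃ w ∈ N, ∃ t ∈ N, pair w t ∈ a.1.2 ∧ t ∈ a.1.1.1 ∧ t ⊆ a.2 ∧
        FEq a.1.1.1 w a.1.1.2 a.2) := by
    refine URel.ex (R := fun N _ (a : ((ZFSet.{u} × ZFSet.{u}) × ZFSet.{u}) × ZFSet.{u}) w =>
      ∃ t ∈ N, pair w t ∈ a.1.2 ∧ t ∈ a.1.1.1 ∧ t ⊆ a.2 ∧ FEq a.1.1.1 w a.1.1.2 a.2) ?_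
    refine URel.ex (R := fun N _ (a : (((ZFSet.{u} × ZFSet.{u}) × ZFSet.{u}) × ZFSet.{u}) ×
      ZFSet.{u}) t => pair a.2 t ∈ a.1.1.2 ∧ t ∈ a.1.1.1.1 ∧ t ⊆ a.1.2 ∧
        FEq a.1.1.1.1 a.2 a.1.1.1.2 a.1.2) ?_
    refine URel.and (by apply_rules (transparency := .reducible) (maxDepth := 400) using is_poly)
      (URel.and (by apply_rules (transparency := .reducible) (maxDepth := 400) using is_poly)
      (URel.and (by apply_rules (transparency := .reducible) (maxDepth := 400) using is_poly)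
      (urel_feq h3 ?_ ?_ ?_ ?_)))
    all_goals apply_rules (transparency := .reducible) (maxDepth := 400) using is_poly
  have h1 : URel CZ.{u} (fun _ _ (a : ((ZFSet.{u} × ZFSet.{u}) × ZFSet.{u}) × ZFSet.{u}) =>
      DM' a.1.1.1 a.1.1.2 a.1.2 a.2) := by
    refine h0.congr (fun N A hN a ha => ?_)
    simp only [in_prod, in_zfset] at ha
    have hZ : IsZF N A := hN
    constructor
    · rintro ⟨w, _, t, _, h⟩
      exact ⟨w, t, h⟩
    · rintro ⟨w, t, h⟩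
      have := hZ.of_pair (hZ.trans _ ha.1.2 _ h.1)
      exact ⟨w, this.1, t, this.2, h⟩
  exact h1.comp (((hp.prodMk hx).prodMk hy).prodMk hq)

theorem feq_iff {x y p : ZFSet.{u}} : FEq P x y p ↔
    (∀ z s, pair z s ∈ x → s ∈ P → ∀ q ∈ P, p ⊆ q → s ⊆ q → ∃ r ∈ P, q ⊆ r ∧ DM P z y r) ∧
    (∀ w t, pair w t ∈ y → t ∈ P → ∀ q ∈ P, p ⊆ q → t ⊆ q →
      ∃ r ∈ P, q ⊆ r ∧ DM' P w x r) := by
  rw [FEq]
  unfold DM DM'
  simp only [exists_prop]

theorem mem_val_of {σ p τ : ZFSet.{u}} (hp : p ∈ G) (h : pair σ p ∈ τ) : val G σ ∈ val G τ :=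
  mem_val.2 ⟨σ, p, hp, h, rfl⟩

/-- Truth lemma for equality. -/
theorem truth_eq (h3 : ST_FB3.{u}) (h2a : ST_FB2a.{u}) (hM : IsZF M A) (hP : P ∈ M)
    (hG : IsGeneric M P G) : ∀ (x : ZFSet.{u}), x ∈ M → ∀ y ∈ M,
      (val G x = val G y ↔ ∃ p ∈ G, FEq P x y p) := by
  have hPM : ∀ p ∈ P, p ∈ M := fun p hp => hM.trans _ hP _ hp
  have main : ∀ (o : Ordinal.{u}), ∀ (x : ZFSet.{u}), x.rank = o → x ∈ M → ∀ y ∈ M,
      (val G x = val G y ↔ ∃ p ∈ G, FEq P x y p) := by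
    intro o
    induction o using WellFoundedLT.induction with
    | ind o ih0 =>
    intro x hxo hx y hy
    have ih : ∀ z s, pair z s ∈ x → ∀ w ∈ M, (val G z = val G w ↔ ∃ p ∈ G, FEq P z w p) := by
      intro z s hz w hw
      have hz' := hM.of_pair (hM.trans _ hx _ hz)
      exact ih0 z.rank (by rw [← hxo]; exact rank_lt_of_pair_mem hz) z rfl hz'.1 w hw
    constructor
    · intro hval
      -- the dense set
      have hU : U CZ.{u} (fun _ _ (a : (ZFSet.{u} × ZFSet.{u}) × ZFSet.{u}) =>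
          ZFSet.sep (fun p => FEq a.1.1 a.1.2 a.2 p) a.1.1) := by
        refine U.sep (R := fun _ _ (a : (ZFSet.{u} × ZFSet.{u}) × ZFSet.{u}) p =>
          FEq a.1.1 a.1.2 a.2 p) ?_ (urel_feq h3 ?_ ?_ ?_ ?_)
        all_goals apply_rules (transparency := .reducible) (maxDepth := 400) using is_poly
      have hD1 : ZFSet.sep (fun p => FEq P x y p) P ∈ M :=
        in_zfset.1 (hU.closed (N := M) (A := A) hM (a := ((P, x), y)) (by simp [hP, hx, hy]))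
      have hU2 : U CZ.{u} (fun N _ (a : (ZFSet.{u} × ZFSet.{u}) × ZFSet.{u}) =>
          ZFSet.sep (fun p => ∃ z ∈ N, ∃ s ∈ N, pair z s ∈ a.1.2 ∧ s ∈ a.1.1 ∧ s ⊆ p ∧
            ∀ r ∈ a.1.1, p ⊆ r → ¬ DM a.1.1 z a.2 r) a.1.1) := by
        refine U.sep (R := fun N _ (a : (ZFSet.{u} × ZFSet.{u}) × ZFSet.{u}) p =>
          ∃ z ∈ N, ∃ s ∈ N, pair z s ∈ a.1.2 ∧ s ∈ a.1.1 ∧ s ⊆ p ∧
            ∀ r ∈ a.1.1, p ⊆ r → ¬ DM a.1.1 z a.2 r) ?_ ?_
        · apply_rules (transparency := .reducible) (maxDepth := 400) using is_poly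
        · apply_rules (transparency := .reducible) (maxDepth := 400) using is_poly
          refine dm_urel h3 ?_ ?_ ?_ ?_
          all_goals apply_rules (transparency := .reducible) (maxDepth := 400) using is_poly
      have hD2 := in_zfset.1 (hU2.closed (N := M) (A := A) hM (a := ((P, x), y))
        (by simp [hP, hx, hy]))
      have hU3 : U CZ.{u} (fun N _ (a : (ZFSet.{u} × ZFSet.{u}) × ZFSet.{u}) =>
          ZFSet.sep (fun p => ∃ z ∈ N, ∃ s ∈ N, pair z s ∈ a.1.2 ∧ s ∈ a.1.1 ∧ s ⊆ p ∧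
            ∀ r ∈ a.1.1, p ⊆ r → ¬ DM' a.1.1 z a.2 r) a.1.1) := by
        refine U.sep (R := fun N _ (a : (ZFSet.{u} × ZFSet.{u}) × ZFSet.{u}) p =>
          ∃ z ∈ N, ∃ s ∈ N, pair z s ∈ a.1.2 ∧ s ∈ a.1.1 ∧ s ⊆ p ∧
            ∀ r ∈ a.1.1, p ⊆ r → ¬ DM' a.1.1 z a.2 r) ?_ ?_
        · apply_rules (transparency := .reducible) (maxDepth := 400) using is_poly
        · apply_rules (transparency := .reducible) (maxDepth := 400) using is_poly
          refine dm'_urel h3 ?_ ?_ ?_ ?_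
          all_goals apply_rules (transparency := .reducible) (maxDepth := 400) using is_poly
      have hD3 := in_zfset.1 (hU3.closed (N := M) (A := A) hM (a := ((P, y), x))
        (by simp [hP, hx, hy]))
      simp only at hD2 hD3
      have hU4 : U CZ.{u} (fun _ _ (a : (ZFSet.{u} × ZFSet.{u}) × ZFSet.{u}) =>
          (a.1.1 ∪ (a.1.2 ∪ a.2) : ZFSet.{u})) := by
        apply_rules (transparency := .reducible) (maxDepth := 400) using is_poly
      have hD := in_zfset.1 (hU4.closed (N := M) (A := A) hM (a := ((_, _), _))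
        (by simp only [in_prod, in_zfset]; exact ⟨⟨hD1, hD2⟩, hD3⟩))
      simp only at hD
      obtain ⟨p, hpG, hp⟩ := hG.meets _ hD (by
        intro p hp
        simp only [ZFSet.mem_union, ZFSet.mem_sep] at hp
        rcases hp with h | h | h
        · exact h.1
        · exact h.1
        · exact h.1) (by
        intro p hp
        by_cases h : FEq P x y p
        · refine ⟨p, ?_, subset_refl _⟩
          simp only [ZFSet.mem_union, ZFSet.mem_sep]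
          exact Or.inl ⟨hp, h⟩
        · rw [feq_iff] at h
          rw [not_and_or] at h
          rcases h with h | h
          · push Not at h
            obtain ⟨z, s, hz, hs, q, hq, hpq, hsq, h⟩ := h
            refine ⟨q, ?_, hpq⟩
            simp only [ZFSet.mem_union, ZFSet.mem_sep]
            have hz' := hM.of_pair (hM.trans _ hx _ hz)
            exact Or.inr (Or.inl ⟨hq, z, hz'.1, s, hz'.2, hz, hs, hsq, h⟩)
          · push Not at h
            obtain ⟨z, s, hz, hs, q, hq, hpq, hsq, h⟩ := h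
            refine ⟨q, ?_, hpq⟩
            simp only [ZFSet.mem_union, ZFSet.mem_sep]
            have hz' := hM.of_pair (hM.trans _ hy _ hz)
            exact Or.inr (Or.inr ⟨hq, z, hz'.1, s, hz'.2, hz, hs, hsq, h⟩))
      simp only [ZFSet.mem_union, ZFSet.mem_sep] at hp
      rcases hp with h | h | h
      · exact ⟨p, hpG, h.2⟩
      · exfalso
        obtain ⟨hpP, z, hzM, s, hsM, hz, hs, hsp, h⟩ := h
        have hsG : s ∈ G := hG.up p hpG s hs hsp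
        have h1 : val G z ∈ val G y := by rw [← hval]; exact mem_val_of hsG hz
        obtain ⟨w, t, ht, hw, e⟩ := mem_val.1 h1
        have hw' := hM.of_pair (hM.trans _ hy _ hw)
        obtain ⟨p', hp', hf⟩ := (ih z s hz w hw'.1).1 e
        obtain ⟨r1, hr1, h4, h5⟩ := hG.dir p hpG p' hp'
        obtain ⟨r, hr, h6, h7⟩ := hG.dir r1 hr1 t ht
        refine h r (hG.sub hr) (subset_trans h4 h6) ⟨w, t, hw, hG.sub ht, h7, ?_⟩
        exact feq_mono h2a (hG.sub hp') (hG.sub hr) (subset_trans h5 h6) hf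
      · exfalso
        obtain ⟨hpP, z, hzM, s, hsM, hz, hs, hsp, h⟩ := h
        have hsG : s ∈ G := hG.up p hpG s hs hsp
        have h1 : val G z ∈ val G x := by rw [hval]; exact mem_val_of hsG hz
        obtain ⟨w, t, ht, hw, e⟩ := mem_val.1 h1
        obtain ⟨p', hp', hf⟩ := (ih w t hw z hzM).1 e.symm
        obtain ⟨r1, hr1, h4, h5⟩ := hG.dir p hpG p' hp'
        obtain ⟨r, hr, h6, h7⟩ := hG.dir r1 hr1 t ht
        refine h r (hG.sub hr) (subset_trans h4 h6) ⟨w, t, hw, hG.sub ht, h7, ?_⟩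
        exact feq_mono h2a (hG.sub hp') (hG.sub hr) (subset_trans h5 h6) hf
    · rintro ⟨p, hp, hf⟩
      rw [feq_iff] at hf
      have hUD : U CZ.{u} (fun _ _ (a : (ZFSet.{u} × ZFSet.{u}) × ZFSet.{u}) =>
          ZFSet.sep (fun r => DM a.1.1 a.1.2 a.2 r) a.1.1) := by
        refine U.sep (R := fun _ _ (a : (ZFSet.{u} × ZFSet.{u}) × ZFSet.{u}) r =>
          DM a.1.1 a.1.2 a.2 r) ?_ (dm_urel h3 ?_ ?_ ?_ ?_)
        all_goals apply_rules (transparency := .reducible) (maxDepth := 400) using is_poly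
      have hUD' : U CZ.{u} (fun _ _ (a : (ZFSet.{u} × ZFSet.{u}) × ZFSet.{u}) =>
          ZFSet.sep (fun r => DM' a.1.1 a.1.2 a.2 r) a.1.1) := by
        refine U.sep (R := fun _ _ (a : (ZFSet.{u} × ZFSet.{u}) × ZFSet.{u}) r =>
          DM' a.1.1 a.1.2 a.2 r) ?_ (dm'_urel h3 ?_ ?_ ?_ ?_)
        all_goals apply_rules (transparency := .reducible) (maxDepth := 400) using is_poly
      apply ZFSet.ext
      intro c
      constructor
      · intro hc
        obtain ⟨z, s, hs, hz, rfl⟩ := mem_val.1 hc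
        have hz' := hM.of_pair (hM.trans _ hx _ hz)
        obtain ⟨q, hq, h1, h2⟩ := hG.dir p hp s hs
        have hD := in_zfset.1 (hUD.closed (N := M) (A := A) hM (a := ((P, z), y))
          (by simp [hP, hz'.1, hy]))
        simp only at hD
        obtain ⟨r, hr, hrD⟩ := dense_below hM hP hG hD (fun r hr => (ZFSet.mem_sep.1 hr).1) hq (by
          intro q' hq' hqq'
          obtain ⟨r, hr, h4, h5⟩ := hf.1 z s hz (hG.sub hs) q' hq' (subset_trans h1 hqq')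
            (subset_trans h2 hqq')
          exact ⟨r, ZFSet.mem_sep.2 ⟨hr, h5⟩, h4⟩)
        obtain ⟨w, t, hw, ht, htr, hzw⟩ := (ZFSet.mem_sep.1 hrD).2
        have hw' := hM.of_pair (hM.trans _ hy _ hw)
        rw [(ih z s hz w hw'.1).2 ⟨r, hr, hzw⟩]
        exact mem_val_of (hG.up r hr t ht htr) hw
      · intro hc
        obtain ⟨z, s, hs, hz, rfl⟩ := mem_val.1 hc
        have hz' := hM.of_pair (hM.trans _ hy _ hz)
        obtain ⟨q, hq, h1, h2⟩ := hG.dir p hp s hs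
        have hD := in_zfset.1 (hUD'.closed (N := M) (A := A) hM (a := ((P, z), x))
          (by simp [hP, hz'.1, hx]))
        simp only at hD
        obtain ⟨r, hr, hrD⟩ := dense_below hM hP hG hD (fun r hr => (ZFSet.mem_sep.1 hr).1) hq (by
          intro q' hq' hqq'
          obtain ⟨r, hr, h4, h5⟩ := hf.2 z s hz (hG.sub hs) q' hq' (subset_trans h1 hqq')
            (subset_trans h2 hqq')
          exact ⟨r, ZFSet.mem_sep.2 ⟨hr, h5⟩, h4⟩)
        obtain ⟨w, t, hw, ht, htr, hzw⟩ := (ZFSet.mem_sep.1 hrD).2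
        rw [← (ih w t hw z hz'.1).2 ⟨r, hr, hzw⟩]
        exact mem_val_of (hG.up r hr t ht htr) hw
  intro x hx y hy
  exact main _ x rfl hx y hy

theorem fmem_iff {x y p : ZFSet.{u}} : FMem P x y p ↔
    ∀ q ∈ P, p ⊆ q → ∃ r ∈ P, q ⊆ r ∧ DM P x y r := Iff.rfl

/-- Truth lemma for membership. -/
theorem truth_mem (h3 : ST_FB3.{u}) (h2a : ST_FB2a.{u}) (hM : IsZF M A) (hP : P ∈ M)
    (hG : IsGeneric M P G) (x : ZFSet.{u}) (hx : x ∈ M) (y : ZFSet.{u}) (hy : y ∈ M) :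
      (val G x ∈ val G y ↔ ∃ p ∈ G, FMem P x y p) := by
  have hUD : U CZ.{u} (fun _ _ (a : (ZFSet.{u} × ZFSet.{u}) × ZFSet.{u}) =>
      ZFSet.sep (fun r => DM a.1.1 a.1.2 a.2 r) a.1.1) := by
    refine U.sep (R := fun _ _ (a : (ZFSet.{u} × ZFSet.{u}) × ZFSet.{u}) r =>
      DM a.1.1 a.1.2 a.2 r) ?_ (dm_urel h3 ?_ ?_ ?_ ?_)
    all_goals apply_rules (transparency := .reducible) (maxDepth := 400) using is_poly
  constructor
  · intro h
    obtain ⟨w, t, ht, hw, e⟩ := mem_val.1 h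
    have hw' := hM.of_pair (hM.trans _ hy _ hw)
    obtain ⟨p', hp', hf⟩ := (truth_eq h3 h2a hM hP hG x hx w hw'.1).1 e
    obtain ⟨p, hp, h4, h5⟩ := hG.dir p' hp' t ht
    refine ⟨p, hp, fmem_iff.2 (fun q hq hpq => ⟨q, hq, subset_refl _, w, t, hw, hG.sub ht,
      subset_trans h5 hpq, ?_⟩)⟩
    exact feq_mono h2a (hG.sub hp') hq (subset_trans h4 hpq) hf
  · rintro ⟨p, hp, h⟩
    rw [fmem_iff] at h
    have hD := in_zfset.1 (hUD.closed (N := M) (A := A) hM (a := ((P, x), y))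
      (by simp [hP, hx, hy]))
    simp only at hD
    obtain ⟨r, hr, hrD⟩ := dense_below hM hP hG hD (fun r hr => (ZFSet.mem_sep.1 hr).1) hp (by
      intro q' hq' hqq'
      obtain ⟨r, hr, h4, h5⟩ := h q' hq' hqq'
      exact ⟨r, ZFSet.mem_sep.2 ⟨hr, h5⟩, h4⟩)
    obtain ⟨w, t, hw, ht, htr, hzw⟩ := (ZFSet.mem_sep.1 hrD).2
    have hw' := hM.of_pair (hM.trans _ hy _ hw)
    rw [(truth_eq h3 h2a hM hP hG x hx w hw'.1).2 ⟨r, hr, hzw⟩]
    exact mem_val_of (hG.up r hr t ht htr) hw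

theorem forces_sep (h3 : ST_FB3.{u}) (hM : IsZF M A) (hP : P ∈ M) {k : ℕ} (φ : Fml k)
    (v : Fin k → ZFSet.{u}) (hv : ∀ i, v i ∈ M) :
    ZFSet.sep (fun p => Forces M P φ v p) P ∈ M := by
  have hU : U CZ.{u} (fun N _ (a : ZFSet.{u} × (Fin k → ZFSet.{u})) =>
      ZFSet.sep (fun p => Forces N a.1 φ a.2 p) a.1) := by
    refine U.sep (R := fun N _ (a : ZFSet.{u} × (Fin k → ZFSet.{u})) p =>
      Forces N a.1 φ a.2 p) U.id.fst ?_
    exact (forces_urel h3 φ).comp (f := fun _ _ (a : (ZFSet.{u} × (Fin k → ZFSet.{u})) ×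
      ZFSet.{u}) => ((a.1.1, a.2), a.1.2))
      ((U.id.fst.fst.prodMk U.id.snd).prodMk U.id.fst.snd)
  exact in_zfset.1 (hU.closed (N := M) (A := A) hM (a := (P, v)) (by
    simp only [in_prod, in_zfset, in_fin]; exact ⟨hP, hv⟩))

theorem forces_sep_ex (h3 : ST_FB3.{u}) (hM : IsZF M A) (hP : P ∈ M) {k : ℕ} (φ : Fml (k + 1))
    (v : Fin k → ZFSet.{u}) (hv : ∀ i, v i ∈ M) :
    ZFSet.sep (fun p => ∃ x ∈ M, Forces M P φ (Fin.cons x v) p) P ∈ M := by
  have hU : U CZ.{u} (fun N _ (a : ZFSet.{u} × (Fin k → ZFSet.{u})) =>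
      ZFSet.sep (fun p => ∃ x ∈ N, Forces N a.1 φ (Fin.cons x a.2) p) a.1) := by
    refine U.sep (R := fun N _ (a : ZFSet.{u} × (Fin k → ZFSet.{u})) p =>
      ∃ x ∈ N, Forces N a.1 φ (Fin.cons x a.2) p) U.id.fst ?_
    refine URel.ex (R := fun N _ (a : (ZFSet.{u} × (Fin k → ZFSet.{u})) × ZFSet.{u}) x =>
      Forces N a.1.1 φ (Fin.cons x a.1.2) a.2) ?_
    exact (forces_urel h3 φ).comp (f := fun _ _ (a : ((ZFSet.{u} × (Fin k → ZFSet.{u})) ×
      ZFSet.{u}) × ZFSet.{u}) => ((a.1.1.1, a.1.2),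
        (Fin.cons a.2 a.1.1.2 : Fin (k + 1) → ZFSet.{u})))
      ((U.id.fst.fst.fst.prodMk U.id.fst.snd).prodMk (U.finCons U.id.snd U.id.fst.fst.snd))
  exact in_zfset.1 (hU.closed (N := M) (A := A) hM (a := (P, v)) (by
    simp only [in_prod, in_zfset, in_fin]; exact ⟨hP, hv⟩))

/-- The truth lemma. -/
theorem truth (h3 : ST_FB3.{u}) (h2a : ST_FB2a.{u}) (hM : IsZF M A) (hP : P ∈ M)
    (hG : IsGeneric M P G) {k : ℕ} (φ : Fml k) : ∀ (v : Fin k → ZFSet.{u}), (∀ i, v i ∈ M) →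
    (Sat (Ext M G) ∅ φ (fun i => val G (v i)) ↔ ∃ p ∈ G, Forces M P φ v p) := by
  induction φ with
  | mem i j => exact fun v hv => truth_mem h3 h2a hM hP hG _ (hv i) _ (hv j)
  | eq i j => exact fun v hv => truth_eq h3 h2a hM hP hG _ (hv i) _ (hv j)
  | pr i =>
    intro v hv
    simp only [Sat, Forces, and_false, exists_false]
    simp
  | @neg k φ ih =>
    intro v hv
    simp only [Sat, Forces]
    rw [ih v hv]
    constructor
    · intro h
      have hU : U CZ.{u} (fun _ _ (a : ZFSet.{u} × ZFSet.{u}) =>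
          ZFSet.sep (fun p => p ∈ a.2 ∨ ∀ q ∈ a.1, p ⊆ q → ¬ q ∈ a.2) a.1) := by
        apply_rules (transparency := .reducible) (maxDepth := 400) using is_poly
      have hD := in_zfset.1 (hU.closed (N := M) (A := A) hM
        (a := (P, ZFSet.sep (fun p => Forces M P φ v p) P))
        (by simp only [in_prod, in_zfset]; exact ⟨hP, forces_sep h3 hM hP φ v hv⟩))
      simp only at hD
      obtain ⟨p, hp, hpD⟩ := hG.meets _ hD (fun r hr => (ZFSet.mem_sep.1 hr).1) (by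
        intro p hp
        by_cases hq : ∃ q ∈ P, p ⊆ q ∧ Forces M P φ v q
        · obtain ⟨q, hq, hpq, hf⟩ := hq
          exact ⟨q, ZFSet.mem_sep.2 ⟨hq, Or.inl (ZFSet.mem_sep.2 ⟨hq, hf⟩)⟩, hpq⟩
        · push Not at hq
          refine ⟨p, ZFSet.mem_sep.2 ⟨hp, Or.inr (fun q hq1 hq2 h4 => ?_)⟩, subset_refl _⟩
          exact hq q hq1 hq2 (ZFSet.mem_sep.1 h4).2)
      rcases (ZFSet.mem_sep.1 hpD).2 with h4 | h4
      · exact absurd ⟨p, hp, (ZFSet.mem_sep.1 h4).2⟩ h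
      · refine ⟨p, hp, fun q hq hpq hf => h4 q hq hpq (ZFSet.mem_sep.2 ⟨hq, hf⟩)⟩
    · rintro ⟨p, hp, h⟩ ⟨p', hp', h'⟩
      obtain ⟨r, hr, h4, h5⟩ := hG.dir p hp p' hp'
      exact h r (hG.sub hr) h4
        ((h2a M P k φ v).1 p' (hG.sub hp') r (hG.sub hr) h5 h')
  | @and k φ ψ ih1 ih2 =>
    intro v hv
    simp only [Sat, Forces]
    rw [ih1 v hv, ih2 v hv]
    constructor
    · rintro ⟨⟨p, hp, h⟩, ⟨p', hp', h'⟩⟩
      obtain ⟨r, hr, h4, h5⟩ := hG.dir p hp p' hp'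
      exact ⟨r, hr, (h2a M P k φ v).1 p (hG.sub hp) r (hG.sub hr) h4 h,
        (h2a M P k ψ v).1 p' (hG.sub hp') r (hG.sub hr) h5 h'⟩
    · rintro ⟨p, hp, h, h'⟩
      exact ⟨⟨p, hp, h⟩, ⟨p, hp, h'⟩⟩
  | @ex k φ ih =>
    intro v hv
    simp only [Sat, Forces]
    have hcons : ∀ x, (Fin.cons (val G x) (fun i => val G (v i)) : Fin (k + 1) → ZFSet.{u}) =
        fun i => val G ((Fin.cons x v : Fin (k + 1) → ZFSet.{u}) i) := by
      intro x
      funext i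
      refine Fin.cases ?_ (fun j => ?_) i
      · rfl
      · rfl
    constructor
    · rintro ⟨_, ⟨x, hx, rfl⟩, h⟩
      rw [hcons x, ih _ (cons_mem hx hv)] at h
      obtain ⟨p, hp, h⟩ := h
      refine ⟨p, hp, fun q hq hpq => ⟨q, hq, subset_refl _, x, hx, ?_⟩⟩
      exact (h2a M P (k + 1) φ _).1 p (hG.sub hp) q hq hpq h
    · rintro ⟨p, hp, h⟩
      obtain ⟨r, hr, hrD⟩ := dense_below hM hP hG (forces_sep_ex h3 hM hP φ v hv)
        (fun r hr => (ZFSet.mem_sep.1 hr).1) hp (by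
        intro q' hq' hqq'
        obtain ⟨r, hr, h4, h5⟩ := h q' hq' hqq'
        exact ⟨r, ZFSet.mem_sep.2 ⟨hr, h5⟩, h4⟩)
      obtain ⟨x, hx, hf⟩ := (ZFSet.mem_sep.1 hrD).2
      refine ⟨val G x, ⟨x, hx, rfl⟩, ?_⟩
      rw [hcons x, ih _ (cons_mem hx hv)]
      exact ⟨r, hr, hf⟩

theorem st_FB2 (h3 : ST_FB3.{u}) (h2a : ST_FB2a.{u}) : ST_FB2.{u} := by
  intro M A P G hM hP hG k φ v hv
  exact truth h3 h2a hM hP hG φ v hv

end Pool.Agent.Helper91.SC
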