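import Pool.Agent.Helper66.SC.Defs
import Pool.Agent.Helper22.SC.Conv

/-! # A sequence of `BL` ordinals (module G1) -/

universe u

namespace Pool.Agent.Helper91.SC

open ZFSet
open Pool.Agent.Helper66.SC Pool.Agent.Helper22.SC

theorem mem_oz {o : Ordinal.{u}} {x : ZFSet.{u}} : x ∈ oz o ↔ ∃ a < o, x = oz a := by
  rw [Ordinal.mem_toZFSet_iff]
  constructor
  · rintro ⟨a, ha, rfl⟩
    exact ⟨a, ha, rfl⟩
  · rintro ⟨a, ha, rfl⟩
    exact ⟨a, ha, rfl⟩

theorem oz_mem_oz {a b : Ordinal.{u}} : oz a ∈ oz b ↔ a < b :=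
  Ordinal.toZFSet_mem_toZFSet_iff

theorem oz_subset_oz {a b : Ordinal.{u}} : oz a ⊆ oz b ↔ a ≤ b :=
  Ordinal.toZFSet_subset_toZFSet_iff

theorem oz_of_isOrdinal {x : ZFSet.{u}} (hx : x.IsOrdinal) : x = oz x.rank :=
  hx.toZFSet_rank_eq.symm

theorem isOrdinal_oz (o : Ordinal.{u}) : (oz o).IsOrdinal := isOrdinal_toZFSet _

theorem rank_oz (o : Ordinal.{u}) : (oz o).rank = o := Ordinal.rank_toZFSet _

section least

variable {C : Cls.{u}} {α : Type (u + 1)} [Ctx.{u} α]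

/-- The least ordinal of `N` with a definable property. -/
theorem U_least [ZCls C] {R : Set ZFSet.{u} → Set ZFSet.{u} → α → ZFSet.{u} → Prop}
    (hR : URel C (fun N A (p : α × ZFSet.{u}) => R N A p.1 p.2))
    (hex : ∀ N A, C N A → ∀ a : α, In N a → ∃ c : Ordinal.{u}, oz c ∈ N ∧ R N A a (oz c)) :
    U C (fun N A a => oz (sInf {c : Ordinal.{u} | oz c ∈ N ∧ R N A a (oz c)})) := by
  have hmem : ∀ N A, C N A → ∀ a : α, In N a →
      sInf {c : Ordinal.{u} | oz c ∈ N ∧ R N A a (oz c)} ∈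
        {c : Ordinal.{u} | oz c ∈ N ∧ R N A a (oz c)} := by
    intro N A hN a ha
    exact csInf_mem (hex N A hN a ha)
  refine U.of_graph (fun {N A} hN {a} ha => (hmem N A hN a ha).1) ?_
  have h1 : URel C (fun N A (p : α × ZFSet.{u}) => p.2.IsOrdinal ∧ R N A p.1 p.2 ∧
      ∀ x ∈ p.2, ¬ R N A p.1 x) := by
    refine URel.and (by apply_rules (transparency := .reducible) (maxDepth := 400) using is_poly)
      (URel.and hR ?_)
    refine URel.ball (R := fun N A (p : α × ZFSet.{u}) x => ¬ R N A p.1 x) U.id.snd ?_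
    refine URel.not ?_
    exact hR.comp (f := fun _ _ (p : (α × ZFSet.{u}) × ZFSet.{u}) => (p.1.1, p.2))
      (U.id.fst.fst.prodMk U.id.snd)
  refine h1.congr (fun N A hN p hp => ?_)
  obtain ⟨hp1, hp2⟩ := in_prod.1 hp
  rw [in_zfset] at hp2
  have hZ : IsZF N A := ZCls.isZF hN
  constructor
  · rintro ⟨h1, h2, h3⟩
    rw [oz_of_isOrdinal h1] at h2 hp2 h3 ⊢
    congr 1
    apply le_antisymm
    · by_contra hlt
      rw [not_le] at hlt
      exact h3 _ (oz_mem_oz.2 hlt) (hmem N A hN p.1 hp1).2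
    · exact csInf_le' ⟨hp2, h2⟩
  · intro h
    rw [h]
    refine ⟨isOrdinal_oz _, (hmem N A hN p.1 hp1).2, ?_⟩
    intro x hx hR'
    have hxN := hZ.trans _ (hmem N A hN p.1 hp1).1 _ hx
    obtain ⟨a, ha, rfl⟩ := mem_oz.1 hx
    exact absurd (csInf_le' (s := {c : Ordinal.{u} | oz c ∈ N ∧ R N A p.1 (oz c)})
      ⟨hxN, hR'⟩) (not_le.2 ha)

end least

/-- The class of models in which every set injects into an ordinal. -/
def CW : Cls.{u} := fun M A => IsZF M A ∧ WO M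

instance : ZCls.{u} CW := ⟨fun h => h.1⟩

variable {M A : Set ZFSet.{u}}

/-- `rank x + ω`. -/
theorem U_addOmega {C : Cls.{u}} [ZCls C] : U C (fun _ _ (x : ZFSet.{u}) =>
    oz (x.rank + Ordinal.omega0)) := by
  have h := U.natUnion (C := C) (α := ZFSet.{u}) (z := fun _ _ x => rk x)
    (S := fun _ _ _ _ g => Insert.insert g g) (H := fun _ _ x n => oz (x.rank + n))
    (by apply_rules (transparency := .reducible) (maxDepth := 400) using is_poly)
    (by apply_rules (transparency := .reducible) (maxDepth := 400) using is_poly)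
    (by intro N A hN a ha; simp [rk]) (by
      intro N A hN a ha n
      rw [Nat.cast_add, Nat.cast_one, ← add_assoc]
      exact Ordinal.toZFSet_add_one _)
  refine h.congr (fun N A hN x hx => ?_)
  apply ZFSet.ext
  intro z
  rw [mem_iUnion, mem_oz]
  constructor
  · rintro ⟨⟨n⟩, hz⟩
    obtain ⟨a, ha, rfl⟩ := mem_oz.1 hz
    exact ⟨a, ha.trans ((add_lt_add_iff_left _).2 (Ordinal.natCast_lt_omega0 n)), rfl⟩
  · rintro ⟨a, ha, rfl⟩
    obtain ⟨b, hb, hab⟩ := (Ordinal.lt_add_iff Ordinal.omega0_ne_zero).1 ha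
    obtain ⟨n, rfl⟩ := Ordinal.lt_omega0.1 hb
    refine ⟨⟨n + 1⟩, oz_mem_oz.2 (lt_of_le_of_lt hab ?_)⟩
    exact (add_lt_add_iff_left _).2 (by exact_mod_cast Nat.lt_succ_self n)

theorem U_addOmega' {C : Cls.{u}} [ZCls C] {α : Type (u + 1)} [Ctx.{u} α]
    {f : Set ZFSet.{u} → Set ZFSet.{u} → α → ZFSet.{u}} (hf : U C f) :
    U C (fun N A a => oz ((f N A a).rank + Ordinal.omega0)) := U_addOmega.comp hf

/-- The property of the step. -/
def StepP (N : Set ZFSet.{u}) (x c : ZFSet.{u}) : Prop :=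
  (∀ y ∈ VM N x, ∃ d ∈ c, CardLe N y d) ∧ oz (x.rank + Ordinal.omega0) ∈ c

/-- The step. -/
noncomputable def stepO (N : Set ZFSet.{u}) (x : ZFSet.{u}) : Ordinal.{u} :=
  sInf {c : Ordinal.{u} | oz c ∈ N ∧ StepP N x (oz c)}

theorem step_ex (hM : IsZF M A) (hW : WO M) {x : ZFSet.{u}} (hx : x ∈ M) :
    ∃ c : Ordinal.{u}, oz c ∈ M ∧ StepP M x (oz c) := by
  have hR : URel CW.{u} (fun N _ (p : (ZFSet.{u} × ZFSet.{u}) × ZFSet.{u}) =>
      p.2.IsOrdinal ∧ CardLe N p.1.2 p.2) := by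
    apply_rules (transparency := .reducible) (maxDepth := 400) using is_poly
  obtain ⟨b, hb, h⟩ := coll_of_urel (C := CW.{u}) (R := fun N _ (_ : ZFSet.{u}) y d =>
    d.IsOrdinal ∧ CardLe N y d) hR (N := M) (A := A) ⟨hM, hW⟩ (a := x) (in_zfset.2 hx)
    (hM.VM_mem hx) (by
      intro y hy
      obtain ⟨o, ho, h⟩ := hW y (mem_VM.1 hy).1
      exact ⟨oz o, ho, isOrdinal_oz o, h⟩)
  have h1 : oz (x.rank + Ordinal.omega0) ∈ M :=
    in_zfset.1 ((U_addOmega (C := CW.{u})).closed (N := M) (A := A) ⟨hM, hW⟩ (a := x)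
      (in_zfset.2 hx))
  have h2 : oz (x.rank + Ordinal.omega0 + 1) ∈ M := by
    have := hM.succ_mem h1
    rwa [← Ordinal.toZFSet_add_one] at this
  have h3 : oz b.rank ∈ M := hM.rk_mem hb
  refine ⟨max b.rank (x.rank + Ordinal.omega0 + 1), ?_, ?_, ?_⟩
  · rcases max_choice b.rank (x.rank + Ordinal.omega0 + 1) with h4 | h4 <;> rw [h4] <;> assumption
  · intro y hy
    obtain ⟨d, hd, hd1, hd2⟩ := h y hy
    refine ⟨d, ?_, hd2⟩
    rw [oz_of_isOrdinal hd1, oz_mem_oz]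
    exact lt_max_of_lt_left (rank_lt_of_mem hd)
  · rw [oz_mem_oz]
    exact lt_max_of_lt_right (Order.lt_add_one_iff.2 le_rfl)

theorem step_mem (hM : IsZF M A) (hW : WO M) {x : ZFSet.{u}} (hx : x ∈ M) :
    oz (stepO M x) ∈ M ∧ StepP M x (oz (stepO M x)) :=
  csInf_mem (s := {c : Ordinal.{u} | oz c ∈ M ∧ StepP M x (oz c)}) (step_ex hM hW hx)

theorem stepP_urel : URel CW.{u} (fun N _ (p : ZFSet.{u} × ZFSet.{u}) => StepP N p.1 p.2) := by
  unfold StepP
  refine URel.and (by apply_rules (transparency := .reducible) (maxDepth := 400) using is_poly) ?_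
  exact URel.mem (U_addOmega' U.id.fst) U.id.snd

theorem U_step : U CW.{u} (fun N _ (x : ZFSet.{u}) => oz (stepO N x)) :=
  U_least (R := fun N _ x c => StepP N x c) stepP_urel
    (fun _ _ hN _ ha => step_ex hN.1 hN.2 (in_zfset.1 ha))

/-- The iterated step. -/
noncomputable def itO (N : Set ZFSet.{u}) (x : ZFSet.{u}) : ℕ → Ordinal.{u}
  | 0 => x.rank
  | n + 1 => stepO N (oz (itO N x n))

theorem oz_iSup (L : ℕ → Ordinal.{u}) :
    oz (⨆ n, L n) = ZFSet.iUnion (fun n : ULift.{u} ℕ => oz (L n.down)) := by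
  apply ZFSet.ext
  intro z
  rw [mem_iUnion, mem_oz]
  constructor
  · rintro ⟨a, ha, rfl⟩
    obtain ⟨n, hn⟩ := (lt_ciSup_iff Ordinal.bddAbove_of_small).1 ha
    exact ⟨⟨n⟩, oz_mem_oz.2 hn⟩
  · rintro ⟨⟨n⟩, hz⟩
    obtain ⟨a, ha, rfl⟩ := mem_oz.1 hz
    exact ⟨a, lt_of_lt_of_le ha (le_ciSup Ordinal.bddAbove_of_small n), rfl⟩

theorem U_itSup : U CW.{u} (fun N _ (x : ZFSet.{u}) => oz (⨆ n, itO N x n)) := by
  have h := U.natUnion (C := CW.{u}) (α := ZFSet.{u}) (z := fun _ _ x => rk x)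
    (S := fun N _ _ _ g => oz (stepO N g)) (H := fun N _ x n => oz (itO N x n))
    (by apply_rules (transparency := .reducible) (maxDepth := 400) using is_poly)
    (U_step.comp U.id.snd)
    (by intro N A hN a ha; rfl) (by
      intro N A hN a ha n
      rfl)
  refine h.congr (fun N A hN x hx => ?_)
  rw [oz_iSup]

theorem it_mem (hM : IsZF M A) (hW : WO M) {x : ZFSet.{u}} (hx : x ∈ M) (n : ℕ) :
    oz (itO M x n) ∈ M := by
  induction n with
  | zero => exact hM.rk_mem hx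
  | succ n ih => exact (step_mem hM hW ih).1

theorem it_lt (hM : IsZF M A) (hW : WO M) {x : ZFSet.{u}} (hx : x ∈ M) (n : ℕ) :
    itO M x n + Ordinal.omega0 < itO M x (n + 1) := by
  have := (step_mem hM hW (it_mem hM hW hx n)).2.2
  rw [rank_oz, oz_mem_oz] at this
  exact this

/-- There are `BL` ordinals above every ordinal. -/
theorem exists_BL (hM : IsZF M A) (hW : WO M) {x : ZFSet.{u}} (hx : x ∈ M) :
    ∃ o : Ordinal.{u}, x.rank < o ∧ BL M o := by
  refine ⟨⨆ n, itO M x n, ?_, ?_, ?_, ?_, ?_⟩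
  · have h1 : itO M x 0 < itO M x 1 :=
      lt_of_le_of_lt le_self_add (it_lt hM hW hx 0)
    exact lt_of_lt_of_le h1 (le_ciSup Ordinal.bddAbove_of_small 1)
  · exact in_zfset.1 (U_itSup.closed (N := M) (A := A) ⟨hM, hW⟩ (a := x) (in_zfset.2 hx))
  · have h1 : Ordinal.omega0 < itO M x 1 :=
      lt_of_le_of_lt le_add_self (it_lt hM hW hx 0)
    exact lt_of_lt_of_le h1 (le_ciSup Ordinal.bddAbove_of_small 1)
  · intro a ha
    obtain ⟨n, hn⟩ := (lt_ciSup_iff Ordinal.bddAbove_of_small).1 ha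
    have h1 : a + Ordinal.omega0 ≤ itO M x n + Ordinal.omega0 :=
      add_le_add_left hn.le _
    exact lt_of_le_of_lt h1 (lt_of_lt_of_le (it_lt hM hW hx n)
      (le_ciSup Ordinal.bddAbove_of_small (n + 1)))
  · intro y hy hr
    obtain ⟨n, hn⟩ := (lt_ciSup_iff Ordinal.bddAbove_of_small).1 hr
    obtain ⟨d, hd, hd'⟩ := (step_mem hM hW (it_mem hM hW hx n)).2.1 y
      (mem_VM.2 ⟨hy, by rwa [rank_oz]⟩)
    obtain ⟨c, hc, rfl⟩ := mem_oz.1 hd
    exact ⟨c, lt_of_lt_of_le hc (le_ciSup (f := fun n => itO M x n)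
      Ordinal.bddAbove_of_small (n + 1)), hd'⟩

/-- The next `BL` ordinal, as a definable property. -/
def NextP (N : Set ZFSet.{u}) (x c : ZFSet.{u}) : Prop :=
  rk x ∈ c ∧ ZFSet.omega ∈ c ∧ (∀ a ∈ c, oz (a.rank + Ordinal.omega0) ∈ c) ∧
    ∀ y ∈ N, rk y ∈ c → ∃ d ∈ c, CardLe N y d

theorem nextP_iff {x : ZFSet.{u}} {o : Ordinal.{u}} (ho : oz o ∈ M) :
    NextP M x (oz o) ↔ x.rank < o ∧ BL M o := by
  unfold NextP BL rk
  rw [Pool.Agent.Helper22.SC.omega_eq]
  simp only [Ordinal.toZFSet_mem_toZFSet_iff]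
  constructor
  · rintro ⟨h1, h2, h3, h4⟩
    refine ⟨h1, ho, h2, ?_, ?_⟩
    · intro a ha
      have := h3 (oz a) (oz_mem_oz.2 ha)
      rw [rank_oz] at this
      exact this
    · intro y hy hr
      obtain ⟨d, hd, h⟩ := h4 y hy hr
      obtain ⟨c, hc, rfl⟩ := mem_oz.1 hd
      exact ⟨c, hc, h⟩
  · rintro ⟨h1, _, h2, h3, h4⟩
    refine ⟨h1, h2, ?_, ?_⟩
    · intro a ha
      obtain ⟨c, hc, rfl⟩ := mem_oz.1 ha
      rw [rank_oz]
      exact h3 c hc
    · intro y hy hr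
      obtain ⟨c, hc, h⟩ := h4 y hy hr
      exact ⟨oz c, oz_mem_oz.2 hc, h⟩

theorem nextP_urel : URel CW.{u} (fun N _ (p : ZFSet.{u} × ZFSet.{u}) => NextP N p.1 p.2) := by
  unfold NextP
  refine URel.and (by apply_rules (transparency := .reducible) (maxDepth := 400) using is_poly)
    (URel.and (by apply_rules (transparency := .reducible) (maxDepth := 400) using is_poly)
    (URel.and ?_
    (by apply_rules (transparency := .reducible) (maxDepth := 400) using is_poly)))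
  refine URel.ball (R := fun _ _ (p : ZFSet.{u} × ZFSet.{u}) a =>
    oz (a.rank + Ordinal.omega0) ∈ p.2) U.id.snd ?_
  exact URel.mem (U_addOmega' U.id.snd) U.id.fst.snd

/-- The next `BL` ordinal. -/
noncomputable def nextO (N : Set ZFSet.{u}) (x : ZFSet.{u}) : Ordinal.{u} :=
  sInf {c : Ordinal.{u} | oz c ∈ N ∧ NextP N x (oz c)}

theorem next_ex (hM : IsZF M A) (hW : WO M) {x : ZFSet.{u}} (hx : x ∈ M) :
    ∃ c : Ordinal.{u}, oz c ∈ M ∧ NextP M x (oz c) := by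
  obtain ⟨o, h1, h2⟩ := exists_BL hM hW hx
  exact ⟨o, h2.1, (nextP_iff h2.1).2 ⟨h1, h2⟩⟩

theorem U_next : U CW.{u} (fun N _ (x : ZFSet.{u}) => oz (nextO N x)) :=
  U_least (R := fun N _ x c => NextP N x c) nextP_urel
    (fun _ _ hN _ ha => next_ex hN.1 hN.2 (in_zfset.1 ha))

theorem next_spec (hM : IsZF M A) (hW : WO M) {x : ZFSet.{u}} (hx : x ∈ M) :
    x.rank < nextO M x ∧ BL M (nextO M x) := by
  have h := csInf_mem (s := {c : Ordinal.{u} | oz c ∈ M ∧ NextP M x (oz c)}) (next_ex hM hW hx)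
  exact (nextP_iff h.1).1 h.2

/-- The sequence. -/
noncomputable def seqL (N : Set ZFSet.{u}) : ℕ → Ordinal.{u}
  | 0 => nextO N ∅
  | n + 1 => nextO N (oz (seqL N n))

theorem seqL_mem (hM : IsZF M A) (hW : WO M) (n : ℕ) : oz (seqL M n) ∈ M := by
  induction n with
  | zero => exact (next_spec hM hW hM.empty_mem).2.1
  | succ n ih => exact (next_spec hM hW ih).2.1

theorem seqL_BL (hM : IsZF M A) (hW : WO M) (n : ℕ) : BL M (seqL M n) := by
  cases n with
  | zero => exact (next_spec hM hW hM.empty_mem).2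
  | succ n => exact (next_spec hM hW (seqL_mem hM hW n)).2

open Classical in
theorem st_G1 : ST_G1.{u} := by
  intro M hM hW
  refine ⟨seqL M, ?_, seqL_BL hM hW, ?_⟩
  · refine strictMono_nat_of_lt_succ (fun n => ?_)
    have := (next_spec hM hW (seqL_mem hM hW n)).1
    rwa [rank_oz] at this
  · have h := U.natrec (C := CW.{u}) (α := ZFSet.{u} × ZFSet.{u})
      (z := fun N _ _ => oz (nextO N ∅))
      (S := fun N _ _ _ g => oz (nextO N g)) (H := fun N _ _ n => oz (seqL N n))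
      (f := fun _ _ p => p.2) (U_next.comp U.empty) (U_next.comp U.id.snd)
      (fun _ _ _ => rfl) (fun _ _ _ _ => rfl) U.id.snd
    have h2 : U CW.{u} (fun N _ (_ : ZFSet.{u}) => gr ZFSet.omega (fun x =>
        if x ∈ ZFSet.omega then oz (seqL N (toNat x)) else ∅)) :=
      U.gr U.omega h
    refine ⟨_, in_zfset.1 (h2.closed (N := M) (A := ∅) ⟨hM, hW⟩ (a := ∅)
      (in_zfset.2 hM.empty_mem)), ?_⟩
    intro x
    rw [mem_gr]
    constructor
    · rintro ⟨y, hy, rfl⟩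
      obtain ⟨n, rfl⟩ := mem_omega.1 hy
      refine ⟨n, ?_⟩
      rw [if_pos hy, toNat_nat]
      rfl
    · rintro ⟨n, rfl⟩
      refine ⟨nat n, nat_mem_omega n, ?_⟩
      rw [if_pos (nat_mem_omega n), toNat_nat]
      rfl

end Pool.Agent.Helper91.SC
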